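import Pool.Agent.H17.BO.TargetsA
import Pool.Agent.H17.VG.TargetsB
import Pool.Agent.H17.VG.TargetsD
import Pool.Agent.H27.LV.Gen
import Pool.Agent.H27.LV.Targets2

/-!
Row D3 of the board bo_modules (MP_70ba79_ag): the height inequality in the border case.
-/

set_option autoImplicit false

namespace Pool.Agent.H3.BO.D3

open MvPolynomial SC Pool.Agent.H27.LV Pool.Agent.H17.VG Pool.Agent.H17.BO

/-! ### Linearity -/

section Lin

variable {R K : Type} [Field R] [Field K] [Algebra R K] {n : ℕ}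

private lemma opF_sum (hOP : T_OP) {ι : Type} (s : Finset ι) (a : ι → K) (τ : ι → Op R K n)
    (G : MvPolynomial (Fin (n + 1)) K) :
    opF (∑ i ∈ s, a i • τ i) G = ∑ i ∈ s, C (a i) * opF (τ i) G := by
  classical
  induction s using Finset.induction_on with
  | empty =>
    have h := (hOP R K n 0 (0 : Op R K n) 0 G G 0 0 0).2.2.1
    simpa using h
  | insert i s hi ih =>
    rw [Finset.sum_insert hi, Finset.sum_insert hi, ← ih]
    have h := (hOP R K n 0 (τ i) (∑ i ∈ s, a i • τ i) G G (a i) 1 0).2.2.1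
    rw [one_smul, C_1, one_mul] at h
    exact h

/-- the functional `fnl y` as a linear map -/
private noncomputable def fL {d : ℕ} (y : Mon (n + 1) d → K) :
    MvPolynomial (Fin (n + 1)) K →ₗ[K] K := ∑ M, y M • lcoeff K (fs M.1)

private lemma fL_apply {d : ℕ} (y : Mon (n + 1) d → K) (G : MvPolynomial (Fin (n + 1)) K) :
    fL y G = fnl y G := by
  unfold fL fnl
  rw [LinearMap.sum_apply]
  refine Finset.sum_congr rfl fun M _ => ?_
  rw [LinearMap.smul_apply, lcoeff_apply, smul_eq_mul]

private lemma fnl_lin {d : ℕ} (y : Mon (n + 1) d → K) (ξ : Fin (n + 1) → K)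
    (G : MvPolynomial (Fin (n + 1)) K) :
    fnl y (lin ξ * G) = ∑ i, ξ i * fnl y (X i * G) := by
  rw [← fL_apply]
  unfold lin
  rw [Finset.sum_mul, map_sum]
  refine Finset.sum_congr rfl fun i _ => ?_
  rw [mul_assoc, ← smul_eq_C_mul, map_smul, smul_eq_mul, fL_apply]

end Lin

/-! ### Linear algebra -/

private lemma dep3 {K : Type} [Field K] {n : ℕ} (x Y0 Y1 : Fin (n + 1) → K) (p : Fin (n + 1))
    (hp : x p = 1)
    (h : ∀ a : Fin 3 → Fin (n + 1), (Matrix.of fun t r : Fin 3 =>
      (![x (a t), Y0 (a t), Y1 (a t)] : Fin 3 → K) r).det = 0) :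
    ∃ c c0 c1 : K, (c0 ≠ 0 ∨ c1 ≠ 0) ∧ ∀ i, c * x i + c0 * Y0 i + c1 * Y1 i = 0 := by
  by_cases hm : ∃ a b, x a * Y0 b - x b * Y0 a ≠ 0
  · obtain ⟨a, b, hab⟩ := hm
    refine ⟨Y0 a * Y1 b - Y1 a * Y0 b, -(x a * Y1 b - x b * Y1 a), x a * Y0 b - x b * Y0 a,
      Or.inr hab, fun j => ?_⟩
    have h1 := h ![a, b, j]
    rw [Matrix.det_fin_three] at h1
    simp only [Matrix.of_apply, Matrix.cons_val_zero, Matrix.cons_val_one, Matrix.cons_val] at h1
    linear_combination h1
  · push Not at hm
    refine ⟨-Y0 p, 1, 0, Or.inl one_ne_zero, fun j => ?_⟩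
    have h1 := hm p j
    rw [hp] at h1
    linear_combination h1

/-! ### Degrees -/

private lemma poleOrder_sub {k K : Type} [Field k] [Field K] [Algebra k K] {σ τ : Type}
    [Fintype σ] [Fintype τ] (v : DV k K) (z : σ → K) (z' : τ → K)
    (h : ∀ j, ∃ j', z j = z' j') : poleOrder v z ≤ poleOrder v z' := by
  unfold poleOrder
  refine Finset.sup_le fun j _ => ?_
  obtain ⟨j', hj'⟩ := h j
  rw [hj']
  exact Finset.le_sup (f := fun i => (-(v.ord (z' i))).toNat) (Finset.mem_univ j')

private lemma deg_sub (hPFI : T_PFI) {k K : Type} [Field k] [IsAlgClosed k] [CharZero k]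
    [Field K] [Algebra k K] [Algebra.EssFiniteType k K] (htr : Algebra.trdeg k K = 1)
    {σ τ : Type} [Fintype σ] [Fintype τ] (z : σ → K) (z' : τ → K)
    (h : ∀ j, ∃ j', z j = z' j') : deg k z ≤ deg k z' := by
  classical
  unfold deg
  have f1 : (Function.support fun v : DV k K => poleOrder v z).Finite :=
    (hPFI k K htr _ z).subset fun v hv => by simpa using hv
  have f2 : (Function.support fun v : DV k K => poleOrder v z').Finite :=
    (hPFI k K htr _ z').subset fun v hv => by simpa using hv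
  rw [finsum_eq_sum_of_support_subset (s := f1.toFinset ∪ f2.toFinset) _ (by
      intro v hv
      rw [Finset.coe_union, Set.Finite.coe_toFinset]
      exact Or.inl hv),
    finsum_eq_sum_of_support_subset (s := f1.toFinset ∪ f2.toFinset) _ (by
      intro v hv
      rw [Finset.coe_union, Set.Finite.coe_toFinset, Set.Finite.coe_toFinset]
      exact Or.inr hv)]
  exact Finset.sum_le_sum fun v _ => poleOrder_sub v z z' h

/-! ### The theorem -/

theorem pf_D3 (hNB3 : T_NB3) (hFNL : T_FNL) (hDA : T_DA) (hDB : T_DB) (hSU : T_SU2)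
    (hOP : T_OP) (hPFI : T_PFI) : Pool.Agent.H17.BO.T_D3 := by
  classical
  intro R k K _ _ _ _ _ _ _ _ htr n e s he F hF hsm D D' hD0 hD' hsys hrat x p hp hxD hu S hS
    Q q hfin htop
  have hcK : CharZero K := charZero_of_injective_algebraMap (algebraMap k K).injective
  -- rational operators
  have hop : ∀ (i : Fin (n + 1)) (q : Mon (n + 1) e → k), ∃ τ : Op R K n, RatOp k τ ∧
      opF τ (up K F) = X i * up K (frm q) := by
    intro i q
    obtain ⟨τ, h1, h2⟩ := hrat (X i * frm q) (by
      have := (isHomogeneous_X k i).mul (frm_homog q)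
      rw [Nat.add_comm e 1]
      exact this)
    refine ⟨τ, h1, ?_⟩
    rw [h2]
    unfold up
    rw [map_mul, map_X]
  choose τr hr1 hr2 using hop
  obtain ⟨T, e0, σ, ν, hσ, hν, hνU, hνx, hνD, hdet⟩ := hNB3 R k K n e s (up K F) D D' x p hp
    hsys hD' hxD (fun j => up K (frm (Q j))) (fun i j => τr i (Q j)) (fun i j => hr2 i (Q j)) hfin
  have hνD' : ∀ b, ∑ i, ν b i * D' (x i) = 0 := by
    intro b
    simp only [hD']
    exact hνD b
  choose y hy1 hy2 using fun b : Fin 2 => hFNL R K n e (up K F) D' x (ν b) hsys (hνD' b)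
  -- the determinants
  obtain ⟨Pd, hPd⟩ : ∃ Pd : (Mon (n + 1) e → k) → (Fin 3 → Fin (n + 1)) → K, Pd = fun f a =>
      ((bigM D x (Sum.elim (fun c : T => τr c.1.1 (Q c.1.2)) (fun t : Fin 3 => τr (a t) f))
        (Sum.elim (fun c => c.1.1) (fun t : Fin 3 => a t))
        (Sum.elim (fun c => c.1.2.castSucc) (fun _ => Fin.last s))).submatrix e0 id).det :=
    ⟨_, rfl⟩
  have hPv : ∀ f a, Pd f a = σ * det3 x y (up K (frm f)) a := by
    intro f a
    have e1 : ∀ b i, ∑ l, ν b l * opV (τr i f) x l = fnl (y b) (X i * up K (frm f)) := by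
      intro b i
      rw [← hr2 i f, hy1]
    have h1 := hdet (fun i => τr i f) a
    simp only [e1] at h1
    rw [hPd]
    exact h1
  -- one of them does not vanish
  have hne : ∃ a0 : Fin 3 → Fin (n + 1), det3 x y (up K (frm q)) a0 ≠ 0 := by
    by_contra hcon
    push Not at hcon
    obtain ⟨c, c0, c1, hc, hrel⟩ := dep3 x (fun i => fnl (y 0) (X i * up K (frm q)))
      (fun i => fnl (y 1) (X i * up K (frm q))) p hp (fun a => hcon a)
    have hφ : PQ x (Sum.elim (fun j => up K (frm (Q j))) fun _ : Unit => up K (frm q)) ≤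
        LinearMap.ker (c0 • fL (y 0) + c1 • fL (y 1)) := by
      refine Submodule.span_le.2 ?_
      rintro G ⟨ξ, j, hξ, rfl⟩
      rw [SetLike.mem_coe, LinearMap.mem_ker, LinearMap.add_apply, LinearMap.smul_apply,
        LinearMap.smul_apply, fL_apply, fL_apply, smul_eq_mul, smul_eq_mul]
      rcases j with j | j
      · have h0 : ∀ b, fnl (y b) (lin ξ * up K (frm (Q j))) = 0 := by
          intro b
          have e1 : opF (∑ i, ξ i • τr i (Q j)) (up K F) = lin ξ * up K (frm (Q j)) := by
            rw [opF_sum hOP]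
            unfold lin
            rw [Finset.sum_mul]
            refine Finset.sum_congr rfl fun i _ => ?_
            rw [hr2, mul_assoc]
          rw [← e1, hy1]
          refine hνU b _ (Submodule.subset_span (Or.inl ⟨_, ?_, rfl⟩))
          rw [e1]
          exact Submodule.subset_span ⟨ξ, j, hξ, rfl⟩
        rw [Sum.elim_inl, h0, h0, mul_zero, mul_zero, add_zero]
      · rw [Sum.elim_inr, fnl_lin, fnl_lin, Finset.mul_sum, Finset.mul_sum,
          ← Finset.sum_add_distrib]
        have e1 : ∀ i, c0 * (ξ i * fnl (y 0) (X i * up K (frm q))) +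
            c1 * (ξ i * fnl (y 1) (X i * up K (frm q))) = -c * (ξ i * x i) := by
          intro i
          linear_combination ξ i * hrel i
        simp only [e1]
        rw [← Finset.mul_sum, hξ, mul_zero]
    -- the functional on vectors
    obtain ⟨ψ, hψ⟩ : ∃ ψ : (Fin (n + 1) → K) →ₗ[K] K, ∀ w, ψ w =
        ∑ i, (c0 * ν 0 i + c1 * ν 1 i) * w i :=
      ⟨∑ i, (c0 * ν 0 i + c1 * ν 1 i) • LinearMap.proj i, fun w => by
        rw [LinearMap.sum_apply]
        rfl⟩
    have hsplit : ∀ w : Fin (n + 1) → K, ψ w =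
        c0 * (∑ i, ν 0 i * w i) + c1 * ∑ i, ν 1 i * w i := by
      intro w
      rw [hψ, Finset.mul_sum, Finset.mul_sum, ← Finset.sum_add_distrib]
      exact Finset.sum_congr rfl fun i _ => by ring
    have hker : Ut R (up K F) x (PQ x (Sum.elim (fun j => up K (frm (Q j)))
        fun _ : Unit => up K (frm q))) ≤ LinearMap.ker ψ := by
      refine Submodule.span_le.2 ?_
      rintro w (⟨τ, hτ, rfl⟩ | hw)
      · have h1 := hφ hτ
        rw [LinearMap.mem_ker, LinearMap.add_apply, LinearMap.smul_apply,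
          LinearMap.smul_apply, fL_apply, fL_apply, smul_eq_mul, smul_eq_mul, hy1, hy1] at h1
        rw [SetLike.mem_coe, LinearMap.mem_ker, hsplit]
        exact h1
      · rw [Set.mem_singleton_iff] at hw
        rw [SetLike.mem_coe, LinearMap.mem_ker, hsplit, hw, hνx, hνx, mul_zero, mul_zero,
          add_zero]
    rw [htop, top_le_iff, LinearMap.ker_eq_top] at hker
    have hz : c0 • ν 0 + c1 • ν 1 = 0 := by
      funext i
      have h1 := hψ (Pi.single i 1)
      rw [hker, LinearMap.zero_apply] at h1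
      rw [Finset.sum_eq_single i (fun j _ hj => by
        rw [Pi.single_eq_of_ne hj, mul_zero]) (fun h => absurd (Finset.mem_univ i) h),
        Pi.single_eq_same, mul_one] at h1
      simp only [Pi.add_apply, Pi.smul_apply, smul_eq_mul, Pi.zero_apply]
      exact h1.symm
    have h2 := Fintype.linearIndependent_iff.1 hν ![c0, c1] (by
      rw [Fin.sum_univ_two]
      exact hz)
    rcases hc with hc | hc
    · exact hc (h2 0)
    · exact hc (h2 1)
  obtain ⟨a0, ha0⟩ := hne
  refine ⟨y, ν, ⟨hν, fun b j a => hy2 b j a⟩, hνx, a0, ha0, ?_⟩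
  intro κ _ f a
  have hA : ∀ (v : DV k K) (g : Mon (n + 1) e → k) (b : Fin 3 → Fin (n + 1)),
      ge v (ordD v D - ((n + 1 + (s + 1) : ℕ) : ℤ) * poleOrder v x) (Pd g b) := by
    intro v g b
    have h2 := hDA R k K htr n (s + 1) D hD0 x p hp (T ⊕ Fin 3)
      (Sum.elim (fun c : T => τr c.1.1 (Q c.1.2)) (fun t : Fin 3 => τr (b t) g))
      (Sum.elim (fun c => c.1.1) (fun t : Fin 3 => b t))
      (Sum.elim (fun c => c.1.2.castSucc) (fun _ => Fin.last s)) e0
      (by rintro (c | t) <;> exact hr1 _ _) v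
    rw [hPd]
    push_cast at h2 ⊢
    exact h2
  have hB : ∀ (v : DV k K) (g : Mon (n + 1) e → k) (b : Fin 3 → Fin (n + 1)),
      ge v (v.ord (eval x (up K F)) + ((e + 1 : ℕ) : ℤ) * poleOrder v x -
        ((n + 1 + (s + 1) : ℕ) : ℤ) * poleOrder v x - 1 + ordD v D) (Pd g b) := by
    intro v g b
    have h2 := hDB R k K htr n e (s + 1) F hF hsm D hD0 x p hp hu
      (fun j => frm ((Fin.snoc (α := fun _ => Mon (n + 1) e → k) Q g : Fin (s + 1) →
        Mon (n + 1) e → k) j)) (T ⊕ Fin 3)
      (Sum.elim (fun c : T => τr c.1.1 (Q c.1.2)) (fun t : Fin 3 => τr (b t) g))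
      (Sum.elim (fun c => c.1.1) (fun t : Fin 3 => b t))
      (Sum.elim (fun c => c.1.2.castSucc) (fun _ => Fin.last s)) e0
      (by rintro (c | t) <;> exact hr1 _ _) (by
        rintro (c | t)
        · simp only [Sum.elim_inl, Fin.snoc_castSucc]
          exact hr2 _ _
        · simp only [Sum.elim_inr, Fin.snoc_last]
          exact hr2 _ _) v
    rw [hPd]
    push_cast at h2 ⊢
    exact h2
  have h1 := hSU k K htr n (n + 1 + (s + 1)) (e + 1) D hD0 x (eval x (up K F)) hu S hS
    (Option κ) (fun o => Pd (o.elim q f) (o.elim a0 a)) none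
    (by
      rw [hPv]
      exact mul_ne_zero hσ ha0)
    (fun v o => hA v _ _) (fun v o => hB v _ _)
  have h4 : (((e + 1 : ℕ) : ℤ) - ((n + 1 + (s + 1) : ℕ) : ℤ)) = 0 := by
    rw [he]
    push_cast
    ring
  rw [h4, zero_mul, add_zero] at h1
  refine le_trans ?_ h1
  have h5 : deg k (fun c : κ => det3 x y (up K (frm (f c))) (a c) /
      det3 x y (up K (frm q)) a0) ≤ deg k (fun c : Option κ => Pd (c.elim q f) (c.elim a0 a) /
        Pd ((none : Option κ).elim q f) ((none : Option κ).elim a0 a)) := by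
    refine deg_sub hPFI htr _ _ fun c => ⟨some c, ?_⟩
    rw [hPv, hPv, mul_div_mul_left _ _ hσ]
    rfl
  exact_mod_cast h5

end Pool.Agent.H3.BO.D3
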