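import Pool.Agent.H17.BO.TargetsC

/-!
Row MAT of the board bo_modules (MP_70ba79_ag): linear spaces of matrices of order two with
determinants in `κ k`.
-/

set_option autoImplicit false

namespace Pool.Agent.H3.BO.MAT

open Pool.Agent.H17.BO

variable {k L E : Type} [Field k] [Field L] [Algebra k L] [AddCommGroup E] [Module k E]

/-- the conclusion -/
private def Good (k : Type) [Field k] [Algebra k L] {E : Type}
    (β : E → Matrix (Fin 2) (Fin 2) L) : Prop :=
  ∃ A B : Matrix (Fin 2) (Fin 2) L, A.det ≠ 0 ∧ B.det ≠ 0 ∧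
    ((∀ q, (A * β q * B) 0 1 = 0 ∧ (A * β q * B) 1 1 ∈ (algebraMap k L).fieldRange) ∨
      ∀ q i j, (A * β q * B) i j ∈ (algebraMap k L).fieldRange)

/-- the normalised hypotheses -/
private structure Nrm (k : Type) [Field k] [Algebra k L] {E : Type} [AddCommGroup E]
    [Module k E] (β : E → Matrix (Fin 2) (Fin 2) L) (q₀ : E) : Prop where
  add : ∀ q q', β (q + q') = β q + β q'
  smul : ∀ (c : k) (q : E), β (c • q) = algebraMap k L c • β q
  one : β q₀ = 1
  det : ∀ q, (β q).det ∈ (algebraMap k L).fieldRange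

omit [AddCommGroup E] [Module k E] in
private lemma good_conj {β : E → Matrix (Fin 2) (Fin 2) L} (P Q : Matrix (Fin 2) (Fin 2) L)
    (hP : P.det ≠ 0) (hQ : Q.det ≠ 0) (h : Good k fun q => P * β q * Q) : Good k β := by
  obtain ⟨A, B, hA, hB, h⟩ := h
  refine ⟨A * P, Q * B, ?_, ?_, ?_⟩
  · rw [Matrix.det_mul]
    exact mul_ne_zero hA hP
  · rw [Matrix.det_mul]
    exact mul_ne_zero hQ hB
  · have e : ∀ q, A * P * β q * (Q * B) = A * (P * β q * Q) * B := by
      intro q
      simp only [Matrix.mul_assoc]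
    simp only [e]
    exact h

private lemma det_add_two (M N : Matrix (Fin 2) (Fin 2) L) :
    (M * N).trace = M.trace * N.trace - ((M + N).det - M.det - N.det) := by
  simp only [Matrix.trace_fin_two, Matrix.det_fin_two, Matrix.mul_apply, Fin.sum_univ_two,
    Matrix.add_apply]
  ring

private lemma Nrm.tr {β : E → Matrix (Fin 2) (Fin 2) L} {q₀ : E} (h : Nrm k β q₀) (q : E) :
    (β q).trace ∈ (algebraMap k L).fieldRange := by
  have h1 := h.det (q + q₀)
  rw [h.add, h.one] at h1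
  have h2 := h.det q
  have e : (β q).trace = (β q + 1).det - (β q).det - 1 := by
    simp only [Matrix.trace_fin_two, Matrix.det_fin_two, Matrix.add_apply, Matrix.one_apply_eq,
      Matrix.one_apply_ne (show (0 : Fin 2) ≠ 1 by decide),
      Matrix.one_apply_ne (show (1 : Fin 2) ≠ 0 by decide)]
    ring
  rw [e]
  exact sub_mem (sub_mem h1 h2) (one_mem _)

private lemma Nrm.trm {β : E → Matrix (Fin 2) (Fin 2) L} {q₀ : E} (h : Nrm k β q₀) (q q' : E) :
    (β q * β q').trace ∈ (algebraMap k L).fieldRange := by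
  rw [det_add_two]
  have h1 := h.det (q + q')
  rw [h.add] at h1
  exact sub_mem (mul_mem (h.tr q) (h.tr q')) (sub_mem (sub_mem h1 (h.det q)) (h.det q'))

private lemma Nrm.conj {β : E → Matrix (Fin 2) (Fin 2) L} {q₀ : E} (h : Nrm k β q₀)
    {A B : Matrix (Fin 2) (Fin 2) L} (hAB : A * B = 1) : Nrm k (fun q => A * β q * B) q₀ where
  add q q' := by
    rw [h.add, Matrix.mul_add, Matrix.add_mul]
  smul c q := by
    rw [h.smul, Matrix.mul_smul, Matrix.smul_mul]
  one := by
    rw [h.one, Matrix.mul_one, hAB]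
  det q := by
    have e : (A * β q * B).det = (β q).det := by
      rw [Matrix.det_mul, Matrix.det_mul, mul_right_comm, ← Matrix.det_mul, hAB, Matrix.det_one,
        one_mul]
    rw [e]
    exact h.det q

private lemma det_ne {A B : Matrix (Fin 2) (Fin 2) L} (hAB : A * B = 1) :
    A.det ≠ 0 ∧ B.det ≠ 0 := by
  have h : A.det * B.det = 1 := by rw [← Matrix.det_mul, hAB, Matrix.det_one]
  exact ⟨left_ne_zero_of_mul_eq_one h, right_ne_zero_of_mul_eq_one h⟩

omit [AddCommGroup E] [Module k E] in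
private lemma good_of_conj {β : E → Matrix (Fin 2) (Fin 2) L}
    {A B : Matrix (Fin 2) (Fin 2) L} (hAB : A * B = 1) (h : Good k fun q => A * β q * B) :
    Good k β :=
  good_conj A B (det_ne hAB).1 (det_ne hAB).2 h

omit [AddCommGroup E] [Module k E] in
private lemma good_one {β : E → Matrix (Fin 2) (Fin 2) L}
    (h : (∀ q, (β q) 0 1 = 0 ∧ (β q) 1 1 ∈ (algebraMap k L).fieldRange) ∨
      ∀ q i j, (β q) i j ∈ (algebraMap k L).fieldRange) : Good k β := by
  refine ⟨1, 1, by simp, by simp, ?_⟩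
  simpa only [Matrix.one_mul, Matrix.mul_one] using h

/-! ### The first case -/

omit [Field L] in
private lemma mk_eq {a b c d a' b' c' d' : L} (h1 : a = a') (h2 : b = b') (h3 : c = c')
    (h4 : d = d') : !![a, b; c, d] = !![a', b'; c', d'] := by rw [h1, h2, h3, h4]

private lemma idem {F : Matrix (Fin 2) (Fin 2) L} (h1 : F 0 0 + F 1 1 = 1)
    (h2 : F 0 0 * F 1 1 - F 0 1 * F 1 0 = 0) :
    ∃ A B : Matrix (Fin 2) (Fin 2) L, A * B = 1 ∧ A * F * B = !![1, 0; 0, 0] := by
  obtain ⟨f, hf⟩ : ∃ f, f = F 0 0 := ⟨_, rfl⟩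
  obtain ⟨g, hg⟩ : ∃ g, g = F 0 1 := ⟨_, rfl⟩
  obtain ⟨h, hh⟩ : ∃ h, h = F 1 0 := ⟨_, rfl⟩
  have h11 : F 1 1 = 1 - f := by rw [hf]; linear_combination h1
  have hF : F = !![f, g; h, 1 - f] := by
    rw [Matrix.eta_fin_two F, h11, hf, hg, hh]
  rw [h11, ← hf, ← hg, ← hh] at h2
  by_cases hf0 : f = 0
  · rw [hf0] at h2 hF
    have h3 : g * h = 0 := by linear_combination -h2
    refine ⟨!![h, 1; 1, -g], !![g, 1; 1, -h], ?_, ?_⟩
    · rw [Matrix.mul_fin_two, Matrix.one_fin_two]
      apply mk_eq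
      · linear_combination h3
      · ring
      · ring
      · linear_combination h3
    · rw [hF, Matrix.mul_fin_two, Matrix.mul_fin_two]
      apply mk_eq
      · linear_combination 2 * h3
      · linear_combination -h * h3
      · linear_combination -g * h3
      · linear_combination -h3
  · have h3 : g * h = f - f ^ 2 := by linear_combination -h2
    refine ⟨!![1, g / f; -h / f, 1], !![f, -g; h, f], ?_, ?_⟩
    · rw [Matrix.mul_fin_two, Matrix.one_fin_two]
      apply mk_eq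
      · field_simp
        linear_combination h3
      · field_simp
        ring
      · field_simp
        ring
      · field_simp
        linear_combination h3
    · rw [hF, Matrix.mul_fin_two, Matrix.mul_fin_two]
      apply mk_eq
      · field_simp
        linear_combination (1 + f) * h3
      · field_simp
        linear_combination -g * h3
      · field_simp
        linear_combination -h * h3
      · field_simp
        linear_combination -h3

private lemma mem_of_quad [IsAlgClosed k] [CharZero k] {p a b c : L} (hc : c ≠ 0)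
    (ha : a ∈ (algebraMap k L).fieldRange) (hb : b ∈ (algebraMap k L).fieldRange)
    (hc' : c ∈ (algebraMap k L).fieldRange) (h : c * p ^ 2 + b * p + a = 0) :
    p ∈ (algebraMap k L).fieldRange := by
  have : CharZero L := charZero_of_injective_algebraMap (algebraMap k L).injective
  obtain ⟨a', rfl⟩ := ha
  obtain ⟨b', rfl⟩ := hb
  obtain ⟨c', rfl⟩ := hc'
  obtain ⟨u, hu⟩ := IsAlgClosed.exists_pow_nat_eq (b' ^ 2 - 4 * a' * c') (n := 2) (by norm_num)
  have hu' : (algebraMap k L u) ^ 2 = (algebraMap k L b') ^ 2 -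
      4 * algebraMap k L a' * algebraMap k L c' := by
    rw [← map_pow, hu, map_sub, map_mul, map_mul, map_pow, map_ofNat]
  have h1 : (2 * algebraMap k L c' * p + algebraMap k L b' - algebraMap k L u) *
      (2 * algebraMap k L c' * p + algebraMap k L b' + algebraMap k L u) = 0 := by
    linear_combination 4 * algebraMap k L c' * h - hu'
  have h2c : 2 * algebraMap k L c' ≠ 0 := mul_ne_zero two_ne_zero hc
  have h2m : (2 : L) ∈ (algebraMap k L).fieldRange := ⟨2, map_ofNat _ 2⟩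
  rcases mul_eq_zero.1 h1 with h2 | h2
  · have e : p = (algebraMap k L u - algebraMap k L b') / (2 * algebraMap k L c') := by
      rw [eq_div_iff h2c]
      linear_combination h2
    rw [e]
    exact div_mem (sub_mem ⟨u, rfl⟩ ⟨b', rfl⟩) (mul_mem h2m ⟨c', rfl⟩)
  · have e : p = (-algebraMap k L u - algebraMap k L b') / (2 * algebraMap k L c') := by
      rw [eq_div_iff h2c]
      linear_combination h2
    rw [e]
    exact div_mem (sub_mem (neg_mem ⟨u, rfl⟩) ⟨b', rfl⟩) (mul_mem h2m ⟨c', rfl⟩)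

omit [Field L] in
private lemma ent00 (a b c d : L) : !![a, b; c, d] 0 0 = a := rfl
omit [Field L] in
private lemma ent01 (a b c d : L) : !![a, b; c, d] 0 1 = b := rfl
omit [Field L] in
private lemma ent10 (a b c d : L) : !![a, b; c, d] 1 0 = c := rfl
omit [Field L] in
private lemma ent11 (a b c d : L) : !![a, b; c, d] 1 1 = d := rfl

/-- the entries of products with diagonal matrices -/
private lemma diag_entries (x y z w : L) (M : Matrix (Fin 2) (Fin 2) L) :
    (!![x, 0; 0, y] * M * !![z, 0; 0, w]) 0 0 = x * M 0 0 * z ∧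
    (!![x, 0; 0, y] * M * !![z, 0; 0, w]) 0 1 = x * M 0 1 * w ∧
    (!![x, 0; 0, y] * M * !![z, 0; 0, w]) 1 0 = y * M 1 0 * z ∧
    (!![x, 0; 0, y] * M * !![z, 0; 0, w]) 1 1 = y * M 1 1 * w := by
  rw [Matrix.eta_fin_two M, Matrix.mul_fin_two, Matrix.mul_fin_two]
  refine ⟨?_, ?_, ?_, ?_⟩
  · rw [ent00, ent00]
    ring
  · rw [ent01, ent01]
    ring
  · rw [ent10, ent10]
    ring
  · rw [ent11, ent11]
    ring

private lemma swap_entries (M : Matrix (Fin 2) (Fin 2) L) :
    ((!![0, 1; 1, 0] : Matrix (Fin 2) (Fin 2) L) * M *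
      (!![0, 1; 1, 0] : Matrix (Fin 2) (Fin 2) L)) 0 1 = M 1 0 ∧
    ((!![0, 1; 1, 0] : Matrix (Fin 2) (Fin 2) L) * M *
      (!![0, 1; 1, 0] : Matrix (Fin 2) (Fin 2) L)) 1 1 = M 0 0 := by
  rw [Matrix.eta_fin_two M, Matrix.mul_fin_two, Matrix.mul_fin_two]
  refine ⟨?_, ?_⟩
  · rw [ent01, ent10]
    ring
  · rw [ent11, ent00]
    ring

private lemma case1' [IsAlgClosed k] [CharZero k] {β : E → Matrix (Fin 2) (Fin 2) L} {q₀ : E}
    (h : Nrm k β q₀) (e : E) (he : β e = !![1, 0; 0, 0]) : Good k β := by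
  have h00 : ∀ q, (β q) 0 0 ∈ (algebraMap k L).fieldRange := by
    intro q
    have h1 := h.trm q e
    rw [he] at h1
    have e1 : (β q * !![1, 0; 0, 0]).trace = (β q) 0 0 := by
      simp [Matrix.trace_fin_two, Matrix.mul_apply, Fin.sum_univ_two]
    rw [e1] at h1
    exact h1
  have h11 : ∀ q, (β q) 1 1 ∈ (algebraMap k L).fieldRange := by
    intro q
    have h1 := h.tr q
    rw [Matrix.trace_fin_two] at h1
    have e1 : (β q) 1 1 = ((β q) 0 0 + (β q) 1 1) - (β q) 0 0 := by ring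
    rw [e1]
    exact sub_mem h1 (h00 q)
  have hpr : ∀ q, (β q) 0 1 * (β q) 1 0 ∈ (algebraMap k L).fieldRange := by
    intro q
    have h1 := h.det q
    rw [Matrix.det_fin_two] at h1
    have e1 : (β q) 0 1 * (β q) 1 0 = (β q) 0 0 * (β q) 1 1 -
        ((β q) 0 0 * (β q) 1 1 - (β q) 0 1 * (β q) 1 0) := by ring
    rw [e1]
    exact sub_mem (mul_mem (h00 q) (h11 q)) h1
  by_cases hz : ∀ q, (β q) 0 1 * (β q) 1 0 = 0
  · -- one of the two entries vanishes
    have hor : (∀ q, (β q) 0 1 = 0) ∨ ∀ q, (β q) 1 0 = 0 := by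
      by_contra hcon
      push Not at hcon
      obtain ⟨⟨q, hq⟩, q', hq'⟩ := hcon
      have k1 : (β q) 1 0 = 0 := (mul_eq_zero.1 (hz q)).resolve_left hq
      have k2 : (β q') 0 1 = 0 := (mul_eq_zero.1 (hz q')).resolve_right hq'
      have k3 := hz (q + q')
      rw [h.add, Matrix.add_apply, Matrix.add_apply, k1, k2, add_zero, zero_add] at k3
      rcases mul_eq_zero.1 k3 with k | k
      · exact hq k
      · exact hq' k
    rcases hor with h0 | h0
    · exact good_one (Or.inl fun q => ⟨h0 q, h11 q⟩)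
    · refine good_conj !![0, 1; 1, 0] !![0, 1; 1, 0] (by simp [Matrix.det_fin_two_of])
        (by simp [Matrix.det_fin_two_of]) (good_one (Or.inl fun q => ?_))
      obtain ⟨e1, e2⟩ := swap_entries (β q)
      rw [e1, e2]
      exact ⟨h0 q, h00 q⟩
  · push Not at hz
    obtain ⟨q₂, hq₂⟩ := hz
    obtain ⟨b, hb⟩ : ∃ b, b = (β q₂) 0 1 := ⟨_, rfl⟩
    have hb0 : b ≠ 0 := by
      rw [hb]
      exact left_ne_zero_of_mul hq₂
    refine good_conj !![b⁻¹, 0; 0, 1] !![b, 0; 0, 1] (by simp [Matrix.det_fin_two_of, hb0])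
      (by simp [Matrix.det_fin_two_of, hb0]) (good_one (Or.inr fun q i j => ?_))
    obtain ⟨d00, d01, d10, d11⟩ := diag_entries b⁻¹ 1 b 1 (β q)
    -- the two mixed entries
    obtain ⟨p, hp⟩ : ∃ p, p = b⁻¹ * (β q) 0 1 := ⟨_, rfl⟩
    obtain ⟨r, hr⟩ : ∃ r, r = b * (β q) 1 0 := ⟨_, rfl⟩
    obtain ⟨c, hc⟩ : ∃ c, c = b * (β q₂) 1 0 := ⟨_, rfl⟩
    have hc0 : c ≠ 0 := by
      rw [hc, hb]
      exact hq₂
    have hcm : c ∈ (algebraMap k L).fieldRange := by
      rw [hc, hb]
      exact hpr q₂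
    have hprm : p * r ∈ (algebraMap k L).fieldRange := by
      have e1 : p * r = (β q) 0 1 * (β q) 1 0 := by
        rw [hp, hr]
        field_simp
      rw [e1]
      exact hpr q
    have hsum : c * p + r ∈ (algebraMap k L).fieldRange := by
      have k1 := hpr (q + q₂)
      rw [h.add, Matrix.add_apply, Matrix.add_apply, ← hb] at k1
      have e1 : c * p + r = ((β q) 0 1 + b) * ((β q) 1 0 + (β q₂) 1 0) - p * r - c := by
        rw [hp, hr, hc]
        field_simp
        ring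
      rw [e1]
      exact sub_mem (sub_mem k1 hprm) hcm
    have hpm : p ∈ (algebraMap k L).fieldRange := by
      refine mem_of_quad (k := k) hc0 hprm (neg_mem hsum) hcm ?_
      ring
    have hrm : r ∈ (algebraMap k L).fieldRange := by
      have e1 : r = (c * p + r) - c * p := by ring
      rw [e1]
      exact sub_mem hsum (mul_mem hcm hpm)
    fin_cases i <;> fin_cases j
    · change (!![b⁻¹, 0; 0, 1] * β q * !![b, 0; 0, 1]) 0 0 ∈ _
      rw [d00]
      have e1 : b⁻¹ * (β q) 0 0 * b = (β q) 0 0 := by field_simp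
      rw [e1]
      exact h00 q
    · change (!![b⁻¹, 0; 0, 1] * β q * !![b, 0; 0, 1]) 0 1 ∈ _
      rw [d01, mul_one, ← hp]
      exact hpm
    · change (!![b⁻¹, 0; 0, 1] * β q * !![b, 0; 0, 1]) 1 0 ∈ _
      rw [d10, one_mul, mul_comm, ← hr]
      exact hrm
    · change (!![b⁻¹, 0; 0, 1] * β q * !![b, 0; 0, 1]) 1 1 ∈ _
      rw [d11, one_mul, mul_one]
      exact h11 q

private lemma Nrm.sub_smul {β : E → Matrix (Fin 2) (Fin 2) L} {q₀ : E} (h : Nrm k β q₀) (q : E)
    (c : k) : β (q - c • q₀) = β q - algebraMap k L c • (1 : Matrix (Fin 2) (Fin 2) L) := by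
  have e1 : q = (q - c • q₀) + c • q₀ := by abel
  have e2 := h.add (q - c • q₀) (c • q₀)
  rw [← e1, h.smul, h.one] at e2
  rw [e2]
  abel

private lemma case1 [IsAlgClosed k] [CharZero k] {β : E → Matrix (Fin 2) (Fin 2) L} {q₀ : E}
    (h : Nrm k β q₀) (q₁ : E) (hd : (β q₁).trace ^ 2 - 4 * (β q₁).det ≠ 0) : Good k β := by
  have : CharZero L := charZero_of_injective_algebraMap (algebraMap k L).injective
  obtain ⟨t, ht⟩ := h.tr q₁
  obtain ⟨d, hd'⟩ := h.det q₁
  obtain ⟨s, hs⟩ := IsAlgClosed.exists_pow_nat_eq (t ^ 2 - 4 * d) (n := 2) (by norm_num)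
  have hs' : (algebraMap k L s) ^ 2 = (β q₁).trace ^ 2 - 4 * (β q₁).det := by
    rw [← map_pow, hs, ← ht, ← hd', map_sub, map_mul, map_pow, map_ofNat]
  have hs0 : algebraMap k L s ≠ 0 := by
    intro h0
    rw [h0] at hs'
    apply hd
    rw [← hs']
    ring
  have hs0' : s ≠ 0 := by
    rintro rfl
    exact hs0 (map_zero _)
  -- the projection
  have hlam : algebraMap k L ((t - s) / 2) = ((β q₁).trace - algebraMap k L s) / 2 := by
    rw [← ht, map_div₀, map_sub, map_ofNat]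
  obtain ⟨F, hF⟩ : ∃ F, F = β (s⁻¹ • (q₁ - ((t - s) / 2) • q₀)) := ⟨_, rfl⟩
  have hF' : F = (algebraMap k L s)⁻¹ • (β q₁ -
      (((β q₁).trace - algebraMap k L s) / 2) • (1 : Matrix (Fin 2) (Fin 2) L)) := by
    rw [hF, h.smul, h.sub_smul, hlam, map_inv₀]
  rw [Matrix.trace_fin_two] at hF' hs'
  rw [Matrix.det_fin_two] at hs'
  obtain ⟨σ, hσ⟩ : ∃ σ, σ = algebraMap k L s := ⟨_, rfl⟩
  rw [← hσ] at hF' hs' hs0
  have f00 : F 0 0 = σ⁻¹ * (β q₁ 0 0 - ((β q₁ 0 0 + β q₁ 1 1) - σ) / 2) := by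
    rw [hF']
    simp
  have f01 : F 0 1 = σ⁻¹ * β q₁ 0 1 := by
    rw [hF']
    simp
  have f10 : F 1 0 = σ⁻¹ * β q₁ 1 0 := by
    rw [hF']
    simp
  have f11 : F 1 1 = σ⁻¹ * (β q₁ 1 1 - ((β q₁ 0 0 + β q₁ 1 1) - σ) / 2) := by
    rw [hF']
    simp
  obtain ⟨A, B, hAB, hAFB⟩ := idem (F := F) (by
      rw [f00, f11]
      field_simp
      ring) (by
      rw [f00, f01, f10, f11]
      field_simp
      linear_combination hs')
  refine good_of_conj hAB (case1' (h.conj hAB) (s⁻¹ • (q₁ - ((t - s) / 2) • q₀)) ?_)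
  rw [← hF]
  exact hAFB

/-! ### The second case -/

private lemma nilp {F : Matrix (Fin 2) (Fin 2) L} (h1 : F 0 0 + F 1 1 = 0)
    (h2 : F 0 0 * F 1 1 - F 0 1 * F 1 0 = 0) (h3 : F 0 1 ≠ 0 ∨ F 1 0 ≠ 0) :
    ∃ A B : Matrix (Fin 2) (Fin 2) L, A * B = 1 ∧ A * F * B = !![0, 0; 1, 0] := by
  obtain ⟨a, ha⟩ : ∃ a, a = F 0 0 := ⟨_, rfl⟩
  obtain ⟨b, hb⟩ : ∃ b, b = F 0 1 := ⟨_, rfl⟩
  obtain ⟨c, hc⟩ : ∃ c, c = F 1 0 := ⟨_, rfl⟩
  have h11 : F 1 1 = -a := by rw [ha]; linear_combination h1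
  have hF : F = !![a, b; c, -a] := by
    rw [Matrix.eta_fin_two F, h11, ha, hb, hc]
  rw [h11, ← ha, ← hb, ← hc] at h2
  rw [← hb, ← hc] at h3
  by_cases hc0 : c = 0
  · have hb0 : b ≠ 0 := h3.resolve_right fun h => h hc0
    have ha0 : a = 0 := by
      rw [hc0] at h2
      have : a ^ 2 = 0 := by linear_combination -h2
      exact pow_eq_zero_iff (two_ne_zero) |>.1 this
    rw [hc0, ha0] at hF
    refine ⟨!![0, 1; b⁻¹, 0], !![0, b; 1, 0], ?_, ?_⟩
    · rw [Matrix.mul_fin_two, Matrix.one_fin_two]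
      apply mk_eq
      · ring
      · ring
      · ring
      · field_simp
        ring
    · rw [hF, Matrix.mul_fin_two, Matrix.mul_fin_two]
      apply mk_eq
      · ring
      · ring
      · field_simp
        ring
      · ring
  · have h4 : a ^ 2 = -(b * c) := by linear_combination -h2
    refine ⟨!![1, -a / c; 0, c⁻¹], !![1, a; 0, c], ?_, ?_⟩
    · rw [Matrix.mul_fin_two, Matrix.one_fin_two]
      apply mk_eq
      · ring
      · field_simp
        ring
      · ring
      · field_simp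
        ring
    · rw [hF, Matrix.mul_fin_two, Matrix.mul_fin_two]
      apply mk_eq
      · field_simp
        ring
      · field_simp
        linear_combination h4
      · field_simp
        ring
      · field_simp
        ring

private lemma case2' [CharZero L] {β : E → Matrix (Fin 2) (Fin 2) L} {q₀ : E}
    (h : Nrm k β q₀) (hd : ∀ q, (β q).trace ^ 2 - 4 * (β q).det = 0) (e : E)
    (he : β e = !![0, 0; 1, 0]) : Good k β := by
  refine good_one (Or.inl fun q => ?_)
  have h1 := hd (q + e)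
  have h2 := hd q
  have h3 := h.tr q
  rw [h.add, he] at h1
  rw [Matrix.trace_fin_two, Matrix.det_fin_two] at h1 h2
  rw [Matrix.trace_fin_two] at h3
  simp only [Matrix.add_apply, ent00, ent01, ent10, ent11, add_zero] at h1
  have h01 : β q 0 1 = 0 := by
    have h4 : (4 : L) * β q 0 1 = 0 := by linear_combination h1 - h2
    exact (mul_eq_zero.1 h4).resolve_left (by norm_num)
  refine ⟨h01, ?_⟩
  rw [h01] at h2
  have h5 : (β q 0 0 - β q 1 1) ^ 2 = 0 := by linear_combination h2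
  have h6 : β q 0 0 - β q 1 1 = 0 := pow_eq_zero_iff (two_ne_zero) |>.1 h5
  have h7 : β q 1 1 = (β q 0 0 + β q 1 1) / 2 := by
    rw [eq_div_iff two_ne_zero]
    linear_combination -h6
  rw [h7]
  exact div_mem h3 ⟨2, map_ofNat _ 2⟩

private lemma trace_conj {A B : Matrix (Fin 2) (Fin 2) L} (hAB : A * B = 1)
    (M : Matrix (Fin 2) (Fin 2) L) : (A * M * B).trace = M.trace ∧
      (A * M * B).det = M.det := by
  have hBA : B * A = 1 := mul_eq_one_comm.1 hAB
  constructor
  · rw [Matrix.trace_mul_comm, ← Matrix.mul_assoc, hBA, Matrix.one_mul]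
  · rw [Matrix.det_mul, Matrix.det_mul, mul_right_comm, ← Matrix.det_mul, hAB, Matrix.det_one,
      one_mul]

private lemma case2 [CharZero L] {β : E → Matrix (Fin 2) (Fin 2) L} {q₀ : E}
    (h : Nrm k β q₀) (hd : ∀ q, (β q).trace ^ 2 - 4 * (β q).det = 0) : Good k β := by
  by_cases hs : ∀ q, β q 0 1 = 0
  · refine good_one (Or.inl fun q => ⟨hs q, ?_⟩)
    have h2 := hd q
    have h3 := h.tr q
    rw [Matrix.trace_fin_two, Matrix.det_fin_two, hs q] at h2
    rw [Matrix.trace_fin_two] at h3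
    have h5 : (β q 0 0 - β q 1 1) ^ 2 = 0 := by linear_combination h2
    have h6 : β q 0 0 - β q 1 1 = 0 := pow_eq_zero_iff (two_ne_zero) |>.1 h5
    have h7 : β q 1 1 = (β q 0 0 + β q 1 1) / 2 := by
      rw [eq_div_iff two_ne_zero]
      linear_combination -h6
    rw [h7]
    exact div_mem h3 ⟨2, map_ofNat _ 2⟩
  · push Not at hs
    obtain ⟨q₁, hq₁⟩ := hs
    obtain ⟨t, ht⟩ := h.tr q₁
    have hF := h.sub_smul q₁ (t / 2)
    obtain ⟨F, hF'⟩ : ∃ F, F = β (q₁ - (t / 2) • q₀) := ⟨_, rfl⟩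
    rw [← hF', map_div₀, map_ofNat, ht] at hF
    have h2 := hd q₁
    rw [Matrix.trace_fin_two] at hF h2
    rw [Matrix.det_fin_two] at h2
    have f00 : F 0 0 = β q₁ 0 0 - (β q₁ 0 0 + β q₁ 1 1) / 2 := by
      rw [hF]
      simp
    have f01 : F 0 1 = β q₁ 0 1 := by
      rw [hF]
      simp
    have f10 : F 1 0 = β q₁ 1 0 := by
      rw [hF]
      simp
    have f11 : F 1 1 = β q₁ 1 1 - (β q₁ 0 0 + β q₁ 1 1) / 2 := by
      rw [hF]
      simp
    obtain ⟨A, B, hAB, hAFB⟩ := nilp (F := F) (by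
        rw [f00, f11]
        ring) (by
        rw [f00, f01, f10, f11]
        linear_combination (-1 / 4 : L) * h2) (Or.inl (by rw [f01]; exact hq₁))
    refine good_of_conj hAB (case2' (h.conj hAB) (fun q => ?_) (q₁ - (t / 2) • q₀) ?_)
    · rw [(trace_conj hAB _).1, (trace_conj hAB _).2]
      exact hd q
    · rw [← hF']
      exact hAFB

theorem pf_MAT : T_MAT := by
  intro k L E _ _ _ _ _ _ _ β κ hβ hdet hne
  have : CharZero L := charZero_of_injective_algebraMap (algebraMap k L).injective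
  obtain ⟨q₀, hq₀⟩ := hne
  obtain ⟨r₀, hr₀⟩ := hdet q₀
  have hκ : κ ≠ 0 := by
    rintro rfl
    rw [zero_mul] at hr₀
    exact hq₀ hr₀
  have hr₀' : algebraMap k L r₀ ≠ 0 := by
    intro h0
    rw [h0, mul_zero] at hr₀
    exact hq₀ hr₀
  have hinv : (β q₀)⁻¹ * β q₀ = 1 := Matrix.nonsing_inv_mul _ (isUnit_iff_ne_zero.2 hq₀)
  have hNrm : Nrm k (fun q => (β q₀)⁻¹ * β q) q₀ := by
    refine ⟨fun q q' => ?_, fun c q => ?_, hinv, fun q => ?_⟩
    · rw [map_add, Matrix.mul_add]
    · rw [hβ, Matrix.mul_smul]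
    · obtain ⟨r, hr⟩ := hdet q
      have e : ((β q₀)⁻¹ * β q).det = algebraMap k L (r / r₀) := by
        have e1 : (β q₀).det * ((β q₀)⁻¹ * β q).det = (β q).det := by
          rw [← Matrix.det_mul, ← Matrix.mul_assoc,
            Matrix.mul_nonsing_inv _ (isUnit_iff_ne_zero.2 hq₀), Matrix.one_mul]
        rw [hr, hr₀] at e1
        rw [map_div₀, eq_div_iff hr₀']
        have e2 : κ * (((β q₀)⁻¹ * β q).det * algebraMap k L r₀) = κ * algebraMap k L r := by
          rw [← e1]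
          ring
        exact mul_left_cancel₀ hκ e2
      rw [e]
      exact ⟨_, rfl⟩
  have hGood : Good k fun q => (β q₀)⁻¹ * β q := by
    by_cases hd : ∀ q, ((β q₀)⁻¹ * β q).trace ^ 2 - 4 * ((β q₀)⁻¹ * β q).det = 0
    · exact case2 hNrm hd
    · push Not at hd
      obtain ⟨q₁, hq₁⟩ := hd
      exact case1 hNrm q₁ hq₁
  have hfin : Good k (β : E → Matrix (Fin 2) (Fin 2) L) := by
    refine good_conj (β q₀)⁻¹ 1 ?_ (by simp) (by simpa only [Matrix.mul_one] using hGood)
    intro h0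
    have h1 : ((β q₀)⁻¹ * β q₀).det = 1 := by rw [hinv, Matrix.det_one]
    rw [Matrix.det_mul, h0, zero_mul] at h1
    exact zero_ne_one h1
  obtain ⟨A, B, hA, hB, h⟩ := hfin
  refine ⟨A, B, hA, hB, ?_⟩
  rcases h with h | h
  · left
    intro q
    obtain ⟨h1, r, hr⟩ := h q
    exact ⟨h1, r, hr.symm⟩
  · right
    intro q i j
    obtain ⟨r, hr⟩ := h q i j
    exact ⟨r, hr.symm⟩

end Pool.Agent.H3.BO.MAT
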